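import Pool.Agent.H122R3.TwI

namespace Pool.Agent.Results.MP_f9e676_co.Incompatibility

/-- `F` is 3-wise `s`-intersecting: `|A ∩ B ∩ C| ≥ s` for all `A, B, C ∈ F`. -/
def ThreeWiseIntersecting (s : ℕ) (F : Finset (Finset ℕ)) : Prop :=
  ∀ A ∈ F, ∀ B ∈ F, ∀ C ∈ F, s ≤ (A ∩ B ∩ C).card

/-- `F` is `t`-intersecting: `|A ∩ B| ≥ t` for all `A, B ∈ F`. -/
def Intersecting (t : ℕ) (F : Finset (Finset ℕ)) : Prop :=
  ∀ A ∈ F, ∀ B ∈ F, t ≤ (A ∩ B).card

/-- The maximum of `w(F) = |F| / 2 ^ n` over all families `F` of subsets of the `n`-element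
set `{0, ..., n - 1}` which have the property `P`. -/
noncomputable def maxDensity (P : Finset (Finset ℕ) → Prop) (n : ℕ) : ℝ :=
  sSup {x : ℝ | ∃ F : Finset (Finset ℕ), F ⊆ (Finset.range n).powerset ∧ P F ∧
    x = (F.card : ℝ) / 2 ^ n}

/-- `a_s(n)` -/
noncomputable def a (s n : ℕ) : ℝ := maxDensity (ThreeWiseIntersecting s) n

/-- `b_t(n)` -/
noncomputable def b (t n : ℕ) : ℝ := maxDensity (Intersecting t) n

/-- `c_{s,t}(n)` -/
noncomputable def c (s t n : ℕ) : ℝ :=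
  maxDensity (fun F => ThreeWiseIntersecting s F ∧ Intersecting t F) n

lemma maxDensity_eq (P : Finset (Finset ℕ) → Prop) (h0 : P ∅) (n : ℕ) :
    maxDensity P n = (H122R3.TW.mx P n : ℝ) / 2 ^ n := by
  apply IsGreatest.csSup_eq
  constructor
  · obtain ⟨F, hF, hP, hc⟩ := H122R3.TW.exists_mx P n h0
    exact ⟨F, hF, hP, by rw [hc]⟩
  · rintro x ⟨F, hF, hP, rfl⟩
    have h := H122R3.TW.le_mx P n F hF hP
    have h2 : (F.card : ℝ) ≤ H122R3.TW.mx P n := by exact_mod_cast h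
    exact div_le_div_of_nonneg_right h2 (by positivity)

/-- For every `s ≥ 1` and every sufficiently large `t`, the properties of being 3-wise
`s`-intersecting and `t`-intersecting are incompatible. -/
theorem result : ∀ s : ℕ, 1 ≤ s → ∃ t₀ : ℕ, ∀ t : ℕ, t₀ ≤ t →
    Filter.liminf (fun n : ℕ => a s n * b t n) Filter.atTop =
      Filter.liminf (fun n : ℕ => c s t n) Filter.atTop := by
  intro s hs
  obtain ⟨t0, ht0⟩ := H122R3.TW.limits s hs
  refine ⟨t0, fun t ht => ?_⟩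
  obtain ⟨h1, h2⟩ := ht0 t ht
  have ea : ∀ n, a s n = (H122R3.TW.mx (H122R3.TW.ThreeWise s) n : ℝ) / 2 ^ n := fun n =>
    maxDensity_eq _ (H122R3.TW.threeWise_empty s) n
  have eb : ∀ n, b t n = (H122R3.TW.mx (H122R3.TW.PairWise t) n : ℝ) / 2 ^ n := fun n =>
    maxDensity_eq _ (H122R3.TW.pairWise_empty t) n
  have ec : ∀ n, c s t n = (H122R3.TW.mx (fun F => H122R3.TW.ThreeWise s F ∧
      H122R3.TW.PairWise t F) n : ℝ) / 2 ^ n := fun n =>
    maxDensity_eq _ (H122R3.TW.both_empty s t) n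
  have h1' : Filter.Tendsto (fun n : ℕ => a s n * b t n) Filter.atTop
      (nhds (((H122R3.TW.mx (H122R3.TW.ThreeWise s) (9 * s) : ℝ) / 2 ^ (9 * s)) * (1 / 2))) := by
    simp only [ea, eb]
    exact h1
  have h2' : Filter.Tendsto (fun n : ℕ => c s t n) Filter.atTop
      (nhds (((H122R3.TW.mx (H122R3.TW.ThreeWise s) (9 * s) : ℝ) / 2 ^ (9 * s)) * (1 / 2))) := by
    simp only [ec]
    exact h2
  rw [h1'.liminf_eq, h2'.liminf_eq]

end Pool.Agent.Results.MP_f9e676_co.Incompatibility
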